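import Pool.Agent.L7h14.QX.Stm

/-!
# Project QX, part NZ: the analytic lemma
-/

set_option autoImplicit false

namespace Pool.Agent.L7h53.QX

open Finset Pool.Agent.TH176.Nag Pool.Agent.TH978.S13 Pool.Agent.L7h14.QX

/-- the unit `1 - X` of the power series -/
noncomputable def uX : (PowerSeries ℚ)ˣ :=
  ⟨1 - PowerSeries.X, PowerSeries.mk 1, by rw [mul_comm]; exact PowerSeries.mk_one_mul_one_sub_eq_one ℚ,
    PowerSeries.mk_one_mul_one_sub_eq_one ℚ⟩

/-- the expansion of a Laurent polynomial in `Y = 1 - X` -/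
noncomputable def phi : LaurentPolynomial ℚ →+* PowerSeries ℚ :=
  LaurentPolynomial.eval₂ (PowerSeries.C : ℚ →+* PowerSeries ℚ) uX

/-- the Laurent polynomial in `Y` at `z = 1` -/
noncomputable def lp (f : (ℤ × ℤ) →₀ ℚ) : LaurentPolynomial ℚ :=
  f.sum fun p a => LaurentPolynomial.C a * LaurentPolynomial.T p.2

/-- evaluation at `y` -/
noncomputable def evy (y : ℚ) (hy : y ≠ 0) : LaurentPolynomial ℚ →+* ℚ :=
  LaurentPolynomial.eval₂ (RingHom.id ℚ) (Units.mk0 y hy)

theorem evy_lp (f : (ℤ × ℤ) →₀ ℚ) (y : ℚ) (hy : y ≠ 0) :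
    evy y hy (lp f) = pr f 1 y (fun _ => 1) := by
  unfold lp pr evy
  rw [map_finsuppSum]
  refine Finsupp.sum_congr fun p _ => ?_
  rw [LaurentPolynomial.eval₂_C_mul_T]
  simp

theorem coeff_uX_zpow (b : ℤ) (k : ℕ) :
    PowerSeries.coeff k (((uX ^ b : (PowerSeries ℚ)ˣ)) : PowerSeries ℚ) =
      (-1) ^ k * dsc k (b : ℚ) / k.factorial := by
  set G : ℤ → PowerSeries ℚ := fun b => PowerSeries.mk fun k => (-1) ^ k * dsc k (b : ℚ) / k.factorial
    with hG
  have h1 : ∀ b : ℤ, G (b + 1) = G b * (1 - PowerSeries.X) := by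
    intro b
    ext k
    rw [mul_sub, mul_one, map_sub]
    cases k with
    | zero => simp [hG, dsc]
    | succ k =>
      rw [PowerSeries.coeff_succ_mul_X]
      simp only [hG, PowerSeries.coeff_mk]
      rw [Int.cast_add, Int.cast_one, dsc_step, Nat.factorial_succ]
      have : (k.factorial : ℚ) ≠ 0 := by exact_mod_cast k.factorial_ne_zero
      have h2 : (k : ℚ) + 1 ≠ 0 := by positivity
      push_cast
      field_simp
      ring
  have h0 : G 0 = 1 := by
    ext k
    cases k with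
    | zero => simp [hG, dsc]
    | succ k =>
      simp only [hG, PowerSeries.coeff_mk]
      rw [PowerSeries.coeff_one, if_neg (by omega), dsc_eq_zero (by omega) (by push_cast; omega)]
      simp
  have h2 : ∀ b : ℤ, ((uX ^ b : (PowerSeries ℚ)ˣ) : PowerSeries ℚ) = G b := by
    intro b
    induction b using Int.induction_on with
    | zero => rw [zpow_zero, h0]; rfl
    | succ i ih =>
      rw [zpow_add_one, Units.val_mul, ih, h1]; rfl
    | pred i ih =>
      have h3 : G (-(i : ℤ)) = G (-(i : ℤ) - 1) * (1 - PowerSeries.X) := by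
        rw [← h1]; ring_nf
      rw [zpow_sub_one, Units.val_mul, ih, h3, mul_assoc]
      have h4 : (1 - PowerSeries.X : PowerSeries ℚ) * ((uX⁻¹ : (PowerSeries ℚ)ˣ) : PowerSeries ℚ) = 1 :=
        uX.mul_inv
      rw [h4, mul_one]
  rw [h2]
  simp only [hG, PowerSeries.coeff_mk]

theorem coeff_phi_lp {f : (ℤ × ℤ) →₀ ℚ} {c : ℤ} (hf : ∀ p ∈ f.support, p.1 = c) (k : ℕ) :
    PowerSeries.coeff k (phi (lp f)) = (-1) ^ k / k.factorial * tau f c (dsc k) := by
  unfold lp phi tau
  rw [map_finsuppSum, map_finsuppSum, Finsupp.mul_sum]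
  refine Finsupp.sum_congr fun p hp => ?_
  rw [LaurentPolynomial.eval₂_C_mul_T, PowerSeries.coeff_C_mul, coeff_uX_zpow, if_pos (hf p hp)]
  ring

theorem lp_col {f : (ℤ × ℤ) →₀ ℚ} {c : ℤ} (hf : ∀ p ∈ f.support, p.1 = c) (L : List (ℚ × ℚ)) :
    ∀ p ∈ (oprs L f).support, p.1 = c := by
  intro p hp
  by_contra hne
  apply Finsupp.mem_support_iff.1 hp
  have : p = (p.1, p.2) := rfl
  rw [this]
  refine oprs_col L (fun b => ?_) _
  by_contra h
  exact hne (hf (p.1, b) (Finsupp.mem_support_iff.2 h))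

/-- the test function is `(1 - Y) ^ κ / Y` -/
theorem phi_psi {ψ : (ℤ × ℤ) →₀ ℚ} {c : ℤ} {κ : ℕ}
    (h1 : ∀ p ∈ ψ.support, p.1 = c ∧ -1 ≤ p.2 ∧ p.2 < κ) (h2 : ψ (c, -1) = 1)
    (h3 : ∀ k < κ, tau ψ c (fun b => dsc k (b + 1)) = 0) :
    phi (lp ψ) = PowerSeries.X ^ κ * PowerSeries.mk 1 := by
  set q : Polynomial ℚ := ψ.sum fun p a => Polynomial.C a * Polynomial.X ^ (p.2 + 1).toNat with hq
  set F : Polynomial ℚ := q.comp (1 - Polynomial.X) with hF
  have hqT : Polynomial.toLaurent q = lp ψ * LaurentPolynomial.T 1 := by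
    rw [hq, lp, map_finsuppSum, Finsupp.sum_mul]
    refine Finsupp.sum_congr fun p hp => ?_
    have hp2 := (h1 p hp).2.1
    rw [map_mul, Polynomial.toLaurent_C, Polynomial.toLaurent_X_pow, mul_assoc,
      ← LaurentPolynomial.T_add, Int.toNat_of_nonneg (by omega)]
  have hFq : phi (Polynomial.toLaurent q) = (F : PowerSeries ℚ) := by
    unfold phi
    rw [LaurentPolynomial.eval₂_toLaurent, hF, Polynomial.comp,
      ← Polynomial.coeToPowerSeries.ringHom_apply, Polynomial.hom_eval₂]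
    congr 1
    · ext a
      simp
    · rw [Polynomial.coeToPowerSeries.ringHom_apply, Polynomial.coe_sub, Polynomial.coe_one,
        Polynomial.coe_X]
      rfl
  have hFk : ∀ k, F.coeff k = (-1) ^ k / k.factorial * tau ψ c (fun b => dsc k (b + 1)) := by
    intro k
    rw [← Polynomial.coeff_coe, ← hFq, hqT]
    unfold lp phi tau
    rw [Finsupp.sum_mul, map_finsuppSum, map_finsuppSum, Finsupp.mul_sum]
    refine Finsupp.sum_congr fun p hp => ?_
    rw [mul_assoc, ← LaurentPolynomial.T_add, LaurentPolynomial.eval₂_C_mul_T,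
      PowerSeries.coeff_C_mul, coeff_uX_zpow, if_pos (h1 p hp).1]
    push_cast
    ring
  have hFlt : ∀ k, k < κ → F.coeff k = 0 := by
    intro k hk
    rw [hFk, h3 k hk, mul_zero]
  have hFgt : ∀ k, κ < k → F.coeff k = 0 := by
    intro k hk
    rw [hFk]
    have : tau ψ c (fun b => dsc k (b + 1)) = 0 := by
      unfold tau
      refine Finset.sum_eq_zero fun p hp => ?_
      have h4 := h1 p hp
      show (if p.1 = c then ψ p * dsc k ((p.2 : ℚ) + 1) else 0) = 0
      rw [if_pos h4.1]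
      have h5 : dsc k (((p.2 + 1 : ℤ)) : ℚ) = 0 := dsc_eq_zero (by omega) (by omega)
      rw [Int.cast_add, Int.cast_one] at h5
      rw [h5, mul_zero]
    rw [this, mul_zero]
  have hF1 : F.eval 1 = 1 := by
    rw [hF, Polynomial.eval_comp]
    have : Polynomial.eval 1 (1 - Polynomial.X : Polynomial ℚ) = 0 := by simp
    rw [this, hq]
    unfold Finsupp.sum
    rw [Polynomial.eval_finsetSum]
    by_cases hm : (c, -1) ∈ ψ.support
    · rw [Finset.sum_eq_single_of_mem _ hm]
      · simp [h2]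
      · intro p hp hne
        have h4 := h1 p hp
        have h5 : p.2 ≠ -1 := by
          intro h
          apply hne
          exact Prod.ext h4.1 h
        have h6 : (p.2 + 1).toNat ≠ 0 := by omega
        simp [h6]
    · exfalso
      apply hm
      rw [Finsupp.mem_support_iff, h2]
      exact one_ne_zero
  have hFX : F = Polynomial.X ^ κ := by
    have hFC : F = Polynomial.C (F.coeff κ) * Polynomial.X ^ κ := by
      ext k
      rw [Polynomial.coeff_C_mul, Polynomial.coeff_X_pow]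
      rcases lt_trichotomy k κ with h | h | h
      · rw [hFlt k h, if_neg (by omega), mul_zero]
      · rw [h, if_pos rfl, mul_one]
      · rw [hFgt k h, if_neg (by omega), mul_zero]
    have : F.coeff κ = 1 := by
      have h4 := hF1
      rw [hFC] at h4
      simpa using h4
    rw [this] at hFC
    rw [hFC]
    simp
  have h5 : phi (lp ψ) * (1 - PowerSeries.X) = PowerSeries.X ^ κ := by
    have h6 : phi (LaurentPolynomial.T 1) = 1 - PowerSeries.X := by
      unfold phi
      rw [LaurentPolynomial.eval₂_T, zpow_one]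
      rfl
    rw [← h6, ← map_mul, ← hqT, hFq, hFX]
    simp
  rw [← h5, mul_assoc, mul_comm (1 - PowerSeries.X : PowerSeries ℚ),
    PowerSeries.mk_one_mul_one_sub_eq_one, mul_one]

theorem coeff_phi_oprs {ψ : (ℤ × ℤ) →₀ ℚ} {j κ : ℕ}
    (h1 : ∀ p ∈ ψ.support, p.1 = -(j : ℤ) ∧ -1 ≤ p.2 ∧ p.2 < κ) (h2 : ψ (-(j : ℤ), -1) = 1)
    (h3 : ∀ k < κ, tau ψ (-(j : ℤ)) (fun b => dsc k (b + 1)) = 0) (L : List (ℚ × ℚ)) (k : ℕ) :
    PowerSeries.coeff k (phi (lp (oprs L ψ))) = if κ ≤ k then ev L j k else 0 := by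
  have h4 := coeff_phi_lp (fun p hp => (h1 p hp).1) k
  rw [phi_psi h1 h2 h3, PowerSeries.coeff_X_pow_mul'] at h4
  rw [coeff_phi_lp (lp_col (fun p hp => (h1 p hp).1) L), tau_oprs, mul_left_comm, ← h4]
  have h5 : (L.map fun a => (k : ℚ) - a.1 - a.2 * ((-(j : ℤ) : ℤ) : ℚ)).prod = ev L j k := by
    unfold ev
    congr 1
    refine List.map_congr_left fun a _ => ?_
    push_cast
    ring
  rw [h5]
  split_ifs
  · simp
  · rw [mul_zero]

theorem exists_y' {P : LaurentPolynomial ℚ} (hP : P ≠ 0) :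
    ∃ (y : ℚ) (hy : y ≠ 0), y ≠ 1 ∧ evy y hy P ≠ 0 := by
  obtain ⟨n, f, hf⟩ := LaurentPolynomial.exists_T_pow P
  have hf0 : f ≠ 0 := by
    rintro rfl
    rw [map_zero] at hf
    rcases mul_eq_zero.1 hf.symm with h | h
    · exact hP h
    · exact (LaurentPolynomial.isUnit_T (R := ℚ) n).ne_zero h
  have hg : f * (Polynomial.X * (Polynomial.X - 1)) ≠ 0 := by
    refine mul_ne_zero hf0 (mul_ne_zero Polynomial.X_ne_zero ?_)
    have := Polynomial.X_sub_C_ne_zero (1 : ℚ)
    rwa [Polynomial.C_1] at this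
  obtain ⟨y, hy⟩ : ∃ y : ℚ, Polynomial.eval y (f * (Polynomial.X * (Polynomial.X - 1))) ≠ 0 := by
    by_contra hcon
    push Not at hcon
    exact hg (Polynomial.funext fun y => by rw [hcon y, Polynomial.eval_zero])
  rw [Polynomial.eval_mul, Polynomial.eval_mul, Polynomial.eval_sub, Polynomial.eval_X,
    Polynomial.eval_one] at hy
  have hy0 : y ≠ 0 := by
    rintro rfl
    simp at hy
  have hy1 : y ≠ 1 := by
    rintro rfl
    simp at hy
  refine ⟨y, hy0, hy1, fun h => hy ?_⟩
  have h1 : evy y hy0 (Polynomial.toLaurent f) = f.eval y := by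
    unfold evy
    rw [LaurentPolynomial.eval₂_toLaurent]
    rfl
  rw [← h1, hf, map_mul, h, zero_mul, zero_mul]

theorem s_NZ : S_NZ := by
  intro n L κ r o ψ h1 h2 h3 h4 h5 h6
  set P : Matrix (Fin n) (Fin n) (LaurentPolynomial ℚ) :=
    Matrix.of fun s j => lp (oprs (L s) (ψ j)) with hP
  set N : Matrix (Fin n) (Fin n) (PowerSeries ℚ) := Matrix.of fun s j =>
    PowerSeries.mk fun i => PowerSeries.coeff (i + (r j + o s)) (phi (lp (oprs (L s) (ψ j)))) with hN
  have hM : phi.mapMatrix P = Matrix.of fun s j =>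
      (PowerSeries.X : PowerSeries ℚ) ^ o s * (Matrix.of fun s j => PowerSeries.X ^ r j * N s j) s j := by
    ext1 s j
    rw [RingHom.mapMatrix_apply, Matrix.map_apply, Matrix.of_apply, Matrix.of_apply, ← mul_assoc,
      ← pow_add]
    ext k
    rw [PowerSeries.coeff_X_pow_mul']
    split_ifs with hk
    · rw [hN, Matrix.of_apply, PowerSeries.coeff_mk, hP, Matrix.of_apply]
      congr 2
      omega
    · rw [hP, Matrix.of_apply, coeff_phi_oprs (h1 j) (h2 j) (h3 j)]
      split_ifs with hk2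
      · exact h4 s j k hk2 (by omega)
      · rfl
  have hdet : phi P.det = (∏ s, (PowerSeries.X : PowerSeries ℚ) ^ o s) *
      ((∏ j, (PowerSeries.X : PowerSeries ℚ) ^ r j) * N.det) := by
    rw [RingHom.map_det, hM, Matrix.det_mul_column, Matrix.det_mul_row]
  have hN0 : N.det ≠ 0 := by
    intro h
    apply h6
    have h7 : PowerSeries.constantCoeff (R := ℚ) N.det = 0 := by rw [h, map_zero]
    rw [RingHom.map_det] at h7
    rw [← h7]
    congr 1
    ext s j
    rw [RingHom.mapMatrix_apply, Matrix.map_apply, Matrix.of_apply, hN, Matrix.of_apply,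
      ← PowerSeries.coeff_zero_eq_constantCoeff_apply, PowerSeries.coeff_mk, zero_add,
      coeff_phi_oprs (h1 j) (h2 j) (h3 j), if_pos (h5 s j)]
  have hP0 : P.det ≠ 0 := by
    intro h
    rw [h, map_zero] at hdet
    have hX : (PowerSeries.X : PowerSeries ℚ) ≠ 0 := PowerSeries.X_ne_zero
    refine mul_ne_zero (Finset.prod_ne_zero_iff.2 fun s _ => pow_ne_zero _ hX)
      (mul_ne_zero (Finset.prod_ne_zero_iff.2 fun j _ => pow_ne_zero _ hX) hN0) hdet.symm
  obtain ⟨y, hy0, hy1, hy⟩ := exists_y' hP0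
  refine ⟨y, hy0, hy1, ?_⟩
  rw [RingHom.map_det] at hy
  have : (evy y hy0).mapMatrix P =
      Matrix.of fun s j : Fin n => pr (oprs (L s) (ψ j)) 1 y (fun _ => 1) := by
    ext s j
    rw [RingHom.mapMatrix_apply, Matrix.map_apply, hP, Matrix.of_apply, evy_lp, Matrix.of_apply]
  rwa [this] at hy

end Pool.Agent.L7h53.QX
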